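import Mathlib
import Pool.Agent.TH425.FF.Nov

/-!
# MP_ceb5ee_gt, Q1: analytic null-finite sets have Borel null-finite hulls
-/

namespace Pool.Agent.Results.MP_ceb5ee_gt.AnalyticHull

open Set Filter Topology MeasureTheory

/-- A set `A` in an abelian topological group is null-finite if there is a null-sequence `x` such
that for every `y` only finitely many `n` satisfy `y + x n ∈ A`. -/
def NullFinite {X : Type*} [AddCommGroup X] [TopologicalSpace X] (A : Set X) : Prop :=
  ∃ x : ℕ → X, Tendsto x atTop (𝓝 0) ∧ ∀ y : X, {n : ℕ | y + x n ∈ A}.Finite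

/-- **MP_ceb5ee_gt, Q1 (positive answer).** Every analytic null-finite set in an abelian Polish
group is contained in a Borel null-finite set. -/
theorem result {X : Type*} [AddCommGroup X] [TopologicalSpace X] [IsTopologicalAddGroup X]
    [PolishSpace X] [MeasurableSpace X] [BorelSpace X] (A : Set X) (hA : AnalyticSet A)
    (hnf : NullFinite A) : ∃ B : Set X, MeasurableSet B ∧ NullFinite B ∧ A ⊆ B := by
  obtain ⟨x, hx, hfin⟩ := hnf
  let P : ℕ → Set X := fun N => ⋃ n : ℕ, (fun y => y + x (N + n)) ⁻¹' A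
  have hP : ∀ N, AnalyticSet (P N) := fun N =>
    AnalyticSet.iUnion fun n => hA.preimage (continuous_id.add continuous_const)
  have hP0 : ⋂ N, P N = ∅ := by
    rw [eq_empty_iff_forall_notMem]
    intro y hy
    rw [mem_iInter] at hy
    obtain ⟨M, hM⟩ := (hfin y).bddAbove
    obtain ⟨n, hn⟩ := mem_iUnion.1 (hy (M + 1))
    have h1 : M + 1 + n ≤ M := hM hn
    omega
  obtain ⟨B, hB, hPB, hB0⟩ := Pool.Agent.TH425.FF.novikov P hP hP0
  refine ⟨⋂ N : ℕ, ⋂ n : ℕ, (fun z => z - x (N + n)) ⁻¹' (B N), ?_, ⟨x, hx, ?_⟩, ?_⟩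
  · refine MeasurableSet.iInter fun N => MeasurableSet.iInter fun n => ?_
    have hc : Continuous (fun z : X => z - x (N + n)) := continuous_id.sub continuous_const
    exact hc.measurable (hB N)
  · intro y
    have hy : y ∉ ⋂ N, B N := by rw [hB0]; exact notMem_empty y
    rw [mem_iInter] at hy
    push Not at hy
    obtain ⟨N, hN⟩ := hy
    refine (finite_lt_nat N).subset ?_
    intro n hn
    by_contra hcon
    obtain ⟨k, rfl⟩ := Nat.exists_eq_add_of_le (not_lt.1 hcon)
    have h1 := mem_iInter.1 (mem_iInter.1 hn N) k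
    simp only [mem_preimage, add_sub_cancel_right] at h1
    exact hN h1
  · intro a ha
    refine mem_iInter.2 fun N => mem_iInter.2 fun n => hPB N (mem_iUnion.2 ⟨n, ?_⟩)
    show a - x (N + n) + x (N + n) ∈ A
    rwa [sub_add_cancel]

end Pool.Agent.Results.MP_ceb5ee_gt.AnalyticHull
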